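import Pool.Agent.Lib.MP_49fa77_co.H30.Iface3
import Pool.Agent.Lib.MP_49fa77_co.H02.Cl

/-!
# C2: the size of the components
-/

set_option autoImplicit false

namespace FT58.AS.H06

open Real MeasureTheory Set Metric Filter Relation FT58 FT58.AS FT58.AS.H02

lemma dt_self (x : ℂ) : dt x x = ‖x‖ ^ 2 := by
  rw [← Complex.normSq_eq_norm_sq, Complex.normSq_apply]
  simp only [dt]

lemma dt_I_sq (z e : ℂ) : dt z e ^ 2 + dt z (Complex.I * e) ^ 2 = ‖z‖ ^ 2 * ‖e‖ ^ 2 := by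
  rw [← Complex.normSq_eq_norm_sq, ← Complex.normSq_eq_norm_sq, Complex.normSq_apply,
    Complex.normSq_apply]
  simp only [dt, Complex.mul_re, Complex.mul_im, Complex.I_re, Complex.I_im]
  ring

/-- a generic direction close to the given one -/
lemma direction' (hDI : DiS) {n : ℕ} {c : Fin n → ℂ} {δ : ℝ} {e : ℂ} {S : Finset ℂ} {cl : ℂ → ℂ}
    {p : ℂ → Fin n → ℂ} {t : ℂ → ℂ} (h : Lb c δ e S cl p t) {η₀ : ℝ} (hη₀ : 0 < η₀) :
    ∃ e' : ℂ, ‖e' - e‖ < η₀ ∧ (∀ x ∈ S, ∀ y ∈ S, x ≠ y → dt (x - y) e' ≠ 0) ∧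
      ∀ x ∈ S, ∀ y ∈ S, cl x ≠ cl y → 8 * δ * ‖e'‖ < |dt (t (cl x) - t (cl y)) e'| := by
  classical
  have hδ := h.pos
  let f : ℂ × ℂ → ℝ := fun z =>
    (|dt (t (cl z.1) - t (cl z.2)) e| - 8 * δ * ‖e‖) / (‖t (cl z.1) - t (cl z.2)‖ + 8 * δ)
  have hden : ∀ z : ℂ × ℂ, 0 < ‖t (cl z.1) - t (cl z.2)‖ + 8 * δ := fun z => by positivity
  obtain ⟨η, hη0, hη⟩ := fin_pos ((S ×ˢ S).filter fun z => cl z.1 ≠ cl z.2) f (by
    intro z hz
    rw [Finset.mem_filter, Finset.mem_product] at hz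
    exact div_pos (sub_pos.2 (h.dir z.1 hz.1.1 z.2 hz.1.2 hz.2)) (hden z))
  obtain ⟨e', he'0, hg⟩ := hDI S e (min η η₀) (lt_min hη0 hη₀)
  have he' : ‖e' - e‖ < η := he'0.trans_le (min_le_left _ _)
  refine ⟨e', he'0.trans_le (min_le_right _ _), hg, fun x hx y hy hxy => ?_⟩
  have h1 := hη (x, y) (by
    rw [Finset.mem_filter, Finset.mem_product]; exact ⟨⟨hx, hy⟩, hxy⟩)
  have h2 : η * (‖t (cl x) - t (cl y)‖ + 8 * δ)
      ≤ |dt (t (cl x) - t (cl y)) e| - 8 * δ * ‖e‖ := by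
    rw [le_div_iff₀ (hden (x, y))] at h1; exact h1
  have h3 : |dt (t (cl x) - t (cl y)) e| ≤ |dt (t (cl x) - t (cl y)) e'|
      + ‖t (cl x) - t (cl y)‖ * ‖e' - e‖ := by
    have h4 : dt (t (cl x) - t (cl y)) e = dt (t (cl x) - t (cl y)) e'
        - dt (t (cl x) - t (cl y)) (e' - e) := by rw [dt_sub_r]; ring
    rw [h4]
    exact (abs_sub _ _).trans (add_le_add le_rfl (dt_abs_le _ _))
  have h5 : ‖e'‖ ≤ ‖e‖ + ‖e' - e‖ := by
    have := norm_add_le e (e' - e); rwa [add_sub_cancel] at this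
  have h6 : ‖t (cl x) - t (cl y)‖ * ‖e' - e‖ + 8 * δ * ‖e' - e‖
      < η * (‖t (cl x) - t (cl y)‖ + 8 * δ) := by
    have := mul_lt_mul_of_pos_right he' (hden (x, y))
    simp only at this
    linarith
  have h7 : 8 * δ * ‖e'‖ ≤ 8 * δ * ‖e‖ + 8 * δ * ‖e' - e‖ := by
    have := mul_le_mul_of_nonneg_left h5 (by positivity : (0 : ℝ) ≤ 8 * δ)
    linarith
  linarith

lemma Ic_symm {n : ℕ} {c : Fin n → ℂ} {i j : Fin n} (h : Ic c i j) : Ic c j i := by
  induction h with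
  | refl => exact ReflTransGen.refl
  | tail _ hb ih => exact ReflTransGen.head (by rw [norm_sub_rev]; exact hb) ih

section main

variable {n : ℕ} {c : Fin n → ℂ} {δ W : ℝ} {e : ℂ} {S : Finset ℂ} {cl : ℂ → ℂ}
  {p : ℂ → Fin n → ℂ} {t : ℂ → ℂ}

/-- The extent of a component in a generic direction. -/
lemma ext_gen (hTB : TbS) (h : Lb c δ e S cl p t)
    (hW : ∀ i j, Ic c i j → ‖c i - c j‖ ≤ W) {f : ℂ}
    (hgen : ∀ x ∈ S, ∀ y ∈ S, x ≠ y → dt (x - y) f ≠ 0) {x y : ℂ} (hx : x ∈ S)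
    (hxy : ReflTransGen (Hg S) x y) : dt (x - y) f ≤ (W + 2 * δ) * ‖f‖ := by
  classical
  let C := S.filter fun z => ReflTransGen (Hg S) x z
  have hC : ∀ z, z ∈ C ↔ ReflTransGen (Hg S) x z := by
    intro z
    rw [Finset.mem_filter]
    exact ⟨fun hz => hz.2, fun hz => ⟨Hg_mem hx hz, hz⟩⟩
  have hCne : C.Nonempty := ⟨x, (hC x).2 ReflTransGen.refl⟩
  obtain ⟨u, hu, humax⟩ := Finset.exists_max_image C (fun z => dt z f) hCne
  obtain ⟨d, hd, hdmin⟩ := Finset.exists_min_image C (fun z => dt z f) hCne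
  have hau := (hC u).1 hu
  have had := (hC d).1 hd
  have huS : u ∈ S := Hg_mem hx hau
  have hdS : d ∈ S := Hg_mem hx had
  have hud := hTB S h.gen f hgen u huS d hdS ((Hg_rtg_symm hau).trans had)
    (fun z hz => humax z ((hC z).2 (hau.trans hz)))
    (fun z hz => hdmin z ((hC z).2 (hau.trans hz)))
  obtain ⟨i, hi⟩ := (h.mem u huS u).1 ⟨huS, rfl⟩
  have hud' : ReflTransGen (Hs S) (p (cl u) i) d := by rw [← hi]; exact hud
  obtain ⟨j, hij, hj⟩ := path_down h huS hud'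
  have k1 := near_dt h huS i f
  have k2 := near_dt h huS j f
  rw [← hi] at k1
  rw [← hj] at k2
  have k3 : dt (c i - c j) f ≤ W * ‖f‖ := by
    refine ((le_abs_self _).trans (dt_abs_le _ _)).trans ?_
    exact mul_le_mul_of_nonneg_right (hW i j hij) (norm_nonneg _)
  have k4 := humax x ((hC x).2 ReflTransGen.refl)
  have k5 := hdmin y ((hC y).2 hxy)
  rw [dt_sub_l] at k3 ⊢
  rw [abs_le] at k1 k2
  nlinarith [k1.1, k1.2, k2.1, k2.2]

/-- The extent of a component in any direction. -/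
lemma ext_all (hDI : DiS) (hTB : TbS) (h : Lb c δ e S cl p t) (hW0 : 0 ≤ W)
    (hW : ∀ i j, Ic c i j → ‖c i - c j‖ ≤ W) (f : ℂ) {x y : ℂ} (hx : x ∈ S)
    (hxy : ReflTransGen (Hg S) x y) : dt (x - y) f ≤ (W + 2 * δ) * ‖f‖ := by
  have hδ := h.pos
  have hM : 0 < W + 2 * δ + ‖x - y‖ := by positivity
  refine le_of_forall_pos_le_add fun ε hε => ?_
  obtain ⟨f', hf', hgen⟩ := hDI S f (ε / (W + 2 * δ + ‖x - y‖)) (div_pos hε hM)
  have h1 := ext_gen hTB h hW hgen hx hxy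
  have h2 : dt (x - y) f = dt (x - y) f' - dt (x - y) (f' - f) := by rw [dt_sub_r]; ring
  have h3 := (neg_abs_le (dt (x - y) (f' - f)))
  have h4 := dt_abs_le (x - y) (f' - f)
  have h5 : ‖f'‖ ≤ ‖f‖ + ‖f' - f‖ := by
    have := norm_add_le f (f' - f); rwa [add_sub_cancel] at this
  have h6 : (W + 2 * δ) * ‖f'‖ ≤ (W + 2 * δ) * (‖f‖ + ‖f' - f‖) :=
    mul_le_mul_of_nonneg_left h5 (by positivity)
  have h7 : ‖f' - f‖ * (W + 2 * δ + ‖x - y‖) < ε := by
    rwa [lt_div_iff₀ hM] at hf'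
  rw [h2]
  nlinarith

/-- The parts of the length belonging to disjoint families. -/
lemma sum_sE_le {ι : Type*} (V : Finset ι) (S : Finset ℂ) (P : ℂ → ℂ → Prop)
    (R : ι → ℂ → Prop) (f : ℂ → ℂ → ℝ) (hf : ∀ c q, 0 ≤ f c q)
    (hdis : ∀ v ∈ V, ∀ w ∈ V, ∀ z, R v z → R w z → v = w) :
    ∑ v ∈ V, sE S (fun c q => P c q ∧ R v c) f ≤ sE S P f := by
  classical
  unfold sE
  rw [Finset.sum_comm]
  refine Finset.sum_le_sum fun c _ => ?_
  rw [Finset.sum_comm]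
  refine Finset.sum_le_sum fun q _ => ?_
  by_cases hP : P c q
  · rw [if_pos hP]
    by_cases hex : ∃ v ∈ V, R v c
    · obtain ⟨v, hv, hvc⟩ := hex
      rw [Finset.sum_eq_single_of_mem v hv]
      · rw [if_pos ⟨hP, hvc⟩]
      · intro w hw hwv
        rw [if_neg]
        rintro ⟨-, hwc⟩
        exact hwv (hdis w hw v hv c hwc hvc)
    · rw [Finset.sum_eq_zero]
      · exact hf c q
      · intro w hw
        rw [if_neg]
        rintro ⟨-, hwc⟩
        exact hex ⟨w, hw, hwc⟩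
  · rw [if_neg hP, Finset.sum_eq_zero]
    intro w _
    rw [if_neg]
    rintro ⟨hP', -⟩
    exact hP hP'

/-- The number of clusters. -/
lemma card_clusters (h : Lb c δ e S cl p t) : S.card = n * (S.image cl).card := by
  classical
  rw [Finset.card_eq_sum_card_image cl S]
  have hfib : ∀ v ∈ S.image cl, (S.filter fun y => cl y = v).card = n := by
    intro v hv
    rw [Finset.mem_image] at hv
    obtain ⟨x, hx, rfl⟩ := hv
    have : (S.filter fun y => cl y = cl x) = Finset.univ.image (p (cl x)) := by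
      ext y
      rw [Finset.mem_filter, Finset.mem_image, h.mem x hx y]
      constructor
      · rintro ⟨i, hi⟩; exact ⟨i, Finset.mem_univ _, hi.symm⟩
      · rintro ⟨i, -, hi⟩; exact ⟨i, hi.symm⟩
    rw [this, Finset.card_image_of_injective _ (h.inj x hx), Finset.card_univ, Fintype.card_fin]
  rw [Finset.sum_congr rfl hfib, Finset.sum_const, smul_eq_mul, mul_comm]

lemma sE_nonneg' (S : Finset ℂ) (P : ℂ → ℂ → Prop) : 0 ≤ sE S P ln := by
  unfold sE
  refine Finset.sum_nonneg fun c _ => Finset.sum_nonneg fun q _ => ?_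
  split_ifs
  · exact norm_nonneg _
  · exact le_rfl

/-- The second claim for one direction. -/
lemma length_dir (hSP : SpS) (hDI : DiS) (hTB : TbS) (hLV : LvS) (h : Lb c δ e S cl p t)
    (he : e ≠ 0) (hW0 : 0 < W) {i₁ j₁ : Fin n} (hij : Ic c i₁ j₁) (hn : ‖c i₁ - c j₁‖ = W)
    (hbig : 7 / 10 * (W * ‖e‖) ≤ |dt (c i₁ - c j₁) e|) :
    (W / 2 - 3 * δ) * S.card ≤ n * sE S (Ou S) ln := by
  classical
  have hδ := h.pos
  have he0 : 0 < ‖e‖ := norm_pos_iff.2 he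
  obtain ⟨e', hclose, hgen, hdir⟩ := direction' hDI h (by positivity : (0 : ℝ) < ‖e‖ / 10)
  have hn1 : ‖e'‖ ≤ ‖e‖ + ‖e' - e‖ := by
    have := norm_add_le e (e' - e); rwa [add_sub_cancel] at this
  have hn2 : ‖e‖ ≤ ‖e'‖ + ‖e' - e‖ := by
    have := norm_sub_le e' (e' - e)
    rwa [sub_sub_cancel] at this
  have he'0 : 0 < ‖e'‖ := by linarith
  -- the extremal pair in the new direction
  have hbig' : W / 2 * ‖e'‖ ≤ |dt (c i₁ - c j₁) e'| := by
    have h4 : dt (c i₁ - c j₁) e = dt (c i₁ - c j₁) e' - dt (c i₁ - c j₁) (e' - e) := by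
      rw [dt_sub_r]; ring
    have h5 : |dt (c i₁ - c j₁) e| ≤ |dt (c i₁ - c j₁) e'| + W * ‖e' - e‖ := by
      rw [h4]
      refine (abs_sub _ _).trans (add_le_add le_rfl ?_)
      rw [← hn]
      exact dt_abs_le _ _
    have h6 : W * ‖e' - e‖ ≤ W * (‖e‖ / 10) := mul_le_mul_of_nonneg_left hclose.le hW0.le
    have h7 : W / 2 * ‖e'‖ ≤ W / 2 * (‖e‖ + ‖e‖ / 10) :=
      mul_le_mul_of_nonneg_left (by linarith) (by positivity)
    nlinarith [mul_pos hW0 he0]
  obtain ⟨⟨i₀, j₀⟩, hmem, hmax⟩ := Finset.exists_max_image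
    ((Finset.univ : Finset (Fin n × Fin n)).filter fun z => Ic c z.1 z.2)
    (fun z => dt (c z.1) e' - dt (c z.2) e')
    ⟨(i₁, j₁), by
      rw [Finset.mem_filter]; exact ⟨Finset.mem_univ _, hij⟩⟩
  rw [Finset.mem_filter] at hmem
  have h0 : Ic c i₀ j₀ := hmem.2
  have hmax' : ∀ i j, Ic c i j →
      dt (c i) e' - dt (c j) e' ≤ dt (c i₀) e' - dt (c j₀) e' := by
    intro i j hij
    exact hmax (i, j) (by rw [Finset.mem_filter]; exact ⟨Finset.mem_univ _, hij⟩)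
  have hext : W / 2 * ‖e'‖ ≤ dt (c i₀) e' - dt (c j₀) e' := by
    refine hbig'.trans (abs_le'.2 ⟨?_, ?_⟩)
    · rw [dt_sub_l]; exact hmax' i₁ j₁ hij
    · rw [dt_sub_l]
      have := hmax' j₁ i₁ (Ic_symm hij)
      linarith
  -- the parts
  have hpart : ∀ v ∈ S.image cl, W / 2 - 2 * δ ≤
      sE S (fun c' q => Ou S c' q ∧ ReflTransGen (Hg S) (p v i₀) c') ln := by
    intro v hv
    rw [Finset.mem_image] at hv
    obtain ⟨x, hx, rfl⟩ := hv
    have hu := (p_mem h hx i₀).1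
    have hd := (p_mem h hx j₀).1
    have hpath : ReflTransGen (Hg S) (p (cl x) i₀) (p (cl x) j₀) := Hs_Hg (path_up hSP h hx h0)
    have h1 := hLV S h.gen e' _ hu _ hd hpath
    have k1 := near_dt h hx i₀ e'
    have k2 := near_dt h hx j₀ e'
    rw [abs_le] at k1 k2
    rw [dt_sub_l] at h1
    have h2 : ‖e'‖ * (W / 2 - 2 * δ) ≤
        ‖e'‖ * sE S (fun c' q => Ou S c' q ∧ ReflTransGen (Hg S) (p (cl x) i₀) c') ln := by
      nlinarith [k1.1, k1.2, k2.1, k2.2]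
    exact le_of_mul_le_mul_left h2 he'0
  have hdisj : ∀ v ∈ S.image cl, ∀ w ∈ S.image cl, ∀ z,
      ReflTransGen (Hg S) (p v i₀) z → ReflTransGen (Hg S) (p w i₀) z → v = w := by
    intro v hv w hw z hvz hwz
    by_contra hne
    rw [Finset.mem_image] at hv hw
    obtain ⟨x, hx, rfl⟩ := hv
    obtain ⟨y, hy, rfl⟩ := hw
    have hpath : ReflTransGen (Hg S) (p (cl x) i₀) (p (cl y) i₀) := hvz.trans (Hg_rtg_symm hwz)
    have hd := hdir x hx y hy hne
    rcases lt_abs.1 hd with hd | hd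
    · exact no_path hSP hTB h hgen h0 hmax' hy hx hd (Hg_rtg_symm hpath)
    · refine no_path hSP hTB h hgen h0 hmax' hx hy ?_ hpath
      have : dt (t (cl y) - t (cl x)) e' = -dt (t (cl x) - t (cl y)) e' := by
        rw [dt_sub_l, dt_sub_l]; ring
      rw [this]; exact hd
  have hsum := sum_sE_le (S.image cl) S (Ou S)
    (fun v z => ReflTransGen (Hg S) (p v i₀) z) ln (fun _ _ => norm_nonneg _) hdisj
  have hlow := Finset.sum_le_sum hpart
  rw [Finset.sum_const, nsmul_eq_mul] at hlow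
  have hcard : (S.card : ℝ) = n * ((S.image cl).card : ℝ) := by
    rw [card_clusters h]; push_cast; ring
  rw [hcard]
  have h9 : ((S.image cl).card : ℝ) * (W / 2 - 2 * δ) ≤ sE S (Ou S) ln := hlow.trans hsum
  have h10 : (0 : ℝ) ≤ n := Nat.cast_nonneg n
  have h11 : (0 : ℝ) ≤ (S.image cl).card := Nat.cast_nonneg _
  have h12 := mul_le_mul_of_nonneg_left h9 h10
  nlinarith [mul_nonneg (mul_nonneg h10 h11) hδ.le]

end main

theorem c2_st (hSP : SpS) (hDI : DiS) (hTB : TbS) (hLV : LvS) : C2S := by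
  intro n c δ W e S cl p t h hI he hW hWe
  obtain ⟨i₁, j₁, hij, hn⟩ := hWe
  have hδ := h.pos
  have hW0 : 0 ≤ W := by rw [← hn]; exact norm_nonneg _
  refine ⟨fun x hx y hy hxy => ?_, ?_⟩
  · have h1 := ext_all hDI hTB h hW0 hW (x - y) hx hxy
    rw [dt_self] at h1
    have h2 : ‖x - y‖ ≤ W + 2 * δ := by
      rcases eq_or_lt_of_le (norm_nonneg (x - y)) with h0 | h0
      · rw [← h0]; positivity
      · refine le_of_mul_le_mul_right ?_ h0
        nlinarith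
    linarith
  · by_cases hbig : W / 2 - 3 * δ ≤ 0
    · have h1 : (0 : ℝ) ≤ n * sE S (Ou S) ln := mul_nonneg (Nat.cast_nonneg n) (sE_nonneg' S _)
      have h2 : (W / 2 - 3 * δ) * S.card ≤ 0 :=
        mul_nonpos_of_nonpos_of_nonneg hbig (Nat.cast_nonneg _)
      linarith
    · have hW1 : 0 < W := by
        push Not at hbig
        linarith
      have hsq := dt_I_sq (c i₁ - c j₁) e
      rw [hn] at hsq
      have he0 : 0 < ‖e‖ := norm_pos_iff.2 he
      have hWe : 0 < W * ‖e‖ := mul_pos hW1 he0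
      by_cases hc : 7 / 10 * (W * ‖e‖) ≤ |dt (c i₁ - c j₁) e|
      · exact length_dir hSP hDI hTB hLV h he hW1 hij hn hc
      · have hIe : ‖Complex.I * e‖ = ‖e‖ := by rw [norm_mul, Complex.norm_I, one_mul]
        refine length_dir hSP hDI hTB hLV hI (mul_ne_zero Complex.I_ne_zero he) hW1 hij hn ?_
        rw [hIe]
        push Not at hc
        have h1 : dt (c i₁ - c j₁) e ^ 2 ≤ (7 / 10 * (W * ‖e‖)) ^ 2 := by
          rw [← sq_abs]
          exact pow_le_pow_left₀ (abs_nonneg _) hc.le 2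
        have h2 : (7 / 10 * (W * ‖e‖)) ^ 2 ≤ dt (c i₁ - c j₁) (Complex.I * e) ^ 2 := by
          nlinarith [mul_pos hWe hWe]
        exact le_trans (le_abs_self _) (sq_le_sq.1 h2)

end FT58.AS.H06
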