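import Pool.Agent.Lib.MP_49fa77_co.H30.Iface

/-!
# RG: the value of a region without bad boundary triangles
-/

set_option autoImplicit false

namespace FT58.AS.H06

open Real MeasureTheory Set Metric Filter Relation FT58 FT58.AS

section
open Classical

/-- half the length of a side, `1` if the side is long -/
noncomputable def aa (c q : ℂ) : ℝ := if Sh c q then ‖q - c‖ / 2 else 1

lemma aa_symm (c q : ℂ) : aa q c = aa c q := by
  unfold aa
  by_cases h : Sh c q
  · rw [if_pos h, if_pos (Sh_symm h), norm_sub_rev]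
  · rw [if_neg h, if_neg (fun h' => h (Sh_symm h'))]

lemma aa_le (c q : ℂ) : aa c q ≤ 1 := by
  unfold aa
  split_ifs with h
  · unfold Sh at h; linarith
  · exact le_rfl

lemma aa_pos {c q r : ℂ} (hX : 0 < XX c q r) : 0 < aa c q := by
  have n1 := (ne_of_XX_pos hX).1
  have p1 : 0 < ‖q - c‖ := norm_pos_iff.mpr (sub_ne_zero.mpr (Ne.symm n1))
  unfold aa
  split_ifs
  · linarith
  · exact one_pos

lemma val2_eq (D : ℝ) (S : Finset ℂ) (c q : ℂ) :
    val2 D S c q = Hh D (aa c q) (al S c q) - (cc * D - 1) * al S c q := by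
  unfold val2 v2 aa Hh
  by_cases h : Sh c q
  · rw [if_pos h, if_pos h]; unfold QQ; ring
  · rw [if_neg h, if_neg h]
    have : Mi 1 1 (al S c q) = al S c q := by
      have h5 := Mi_sub_const (a := 1) (B := 1) (α := 0) (β := al S c q) one_pos one_pos (by
        intro θ _; nlinarith [cos_sq_le_one θ])
      rw [Mi_zero] at h5; linarith
    rw [this]; unfold qh; ring

lemma half_eq {c q r : ℂ} (hX : 0 < XX c q r) :
    RR c q r * cos (att c q r) = ‖q - c‖ / 2 := by
  have hs := RR_sin hX
  have hc : cos (att c q r) = sin (an c q r) := by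
    unfold an; rw [sin_pi_div_two_sub]
  rw [hc, hs]

lemma cos_att_pos (c q r : ℂ) : 0 < cos (att c q r) :=
  cos_pos_of_mem_Ioo ⟨lt_att _ _ _, att_lt _ _ _⟩

/-- small triangles: the side is at most two -/
lemma small_aa {c q r : ℂ} (hX : 0 < XX c q r) (hR : RR c q r ≤ 1) : aa c q = ‖q - c‖ / 2 := by
  have h := half_eq hX
  have h1 := cos_att_pos c q r
  have h2 := cos_le_one (att c q r)
  have h3 := RR_pos hX
  unfold aa
  split_ifs with hs
  · rfl
  · unfold Sh at hs
    have : RR c q r * cos (att c q r) ≤ 1 := by nlinarith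
    linarith [not_lt.mp hs]

lemma small_Hh {D : ℝ} {c q r : ℂ} (hX : 0 < XX c q r) (hR : RR c q r ≤ 1) :
    Hh D (aa c q) (att c q r) = -(1 - D) * ((‖q - c‖ / 2) ^ 2 * tan (att c q r)) := by
  rw [small_aa hX hR]
  have h := half_eq hX
  have h1 := cos_att_pos c q r
  have h3 := RR_pos hX
  have hle : (‖q - c‖ / 2) ^ 2 ≤ cos (att c q r) ^ 2 := by
    rw [← h, mul_pow]
    have : RR c q r ^ 2 ≤ 1 := by nlinarith
    nlinarith [sq_nonneg (cos (att c q r))]
  have := QQ_eq (D := D) (a := ‖q - c‖ / 2) (ω := att c q r)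
    (by rw [abs_lt]; exact ⟨lt_att _ _ _, att_lt _ _ _⟩) hle
  unfold QQ at this
  unfold Hh
  linarith

/-- large triangles: the cosine is at most the half side -/
lemma big_cos {c q r : ℂ} (hX : 0 < XX c q r) (hR : 1 < RR c q r) :
    cos (att c q r) ≤ aa c q := by
  unfold aa
  split_ifs
  · rw [← half_eq hX]
    have := cos_att_pos c q r
    nlinarith
  · exact cos_le_one _

theorem rg_st (hHA : HaS) (hHB : HbS) (hHC : HcS) (hAR : ArS) : RgS := by
  intro D S T hD0 hD1 hF hbd hgood
  obtain ⟨hC1, hC2, hC3⟩ := hHC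
  set e : ℂ → ℂ → ℝ := fun c q => -(1 - D) * Lc (al S c q) - 4 * (1 - D) ^ 2 with he
  set g : ℂ → ℂ → ℝ := fun c q => Hh D (aa c q) (al S c q) - e c q with hg
  -- the sums of the angles and of the charges
  have s1 : 3 * sE S (Lf T) (al S) = π / 2 * nE S (Lf T) := by
    rw [← sT_edge hF, ← sT_avg hF.cyc, ← sE_const, ← sT_edge hF (fun _ _ => π / 2)]
    apply sT_congr
    intro c q r ht
    exact al_sum (hF.tr _ _ _ ht)
  have s2 : 3 * sE S (Lf T) e = -(Al D) * nE S (Lf T) := by
    rw [← sT_edge hF, ← sT_avg hF.cyc, ← sE_const, ← sT_edge hF (fun _ _ => -(Al D))]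
    apply sT_congr
    intro c q r ht
    have h1 := al_sum (hF.tr _ _ _ ht)
    have h2 := hC3 _ _ _ h1
    simp only [he]
    unfold Al
    linear_combination (-(1 - D)) * h2
  -- the main inequality
  suffices key : 0 ≤ sE S (Lf T) g by
    have e1 : sE S (Lf T) (val2 D S)
        = sE S (Lf T) g + sE S (Lf T) e - (cc * D - 1) * sE S (Lf T) (al S) := by
      rw [← sE_smul, ← sE_add, ← sE_sub]
      apply sE_congr
      · intro c _ q _; exact Iff.rfl
      · intro c _ q _ _
        rw [val2_eq]
        simp only [hg]; ring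
    have e2 := kap_eq D
    have e3 : (cc * D - 1) * sE S (Lf T) (al S) = kap D * (nE S (Lf T) / 3) := by
      rw [← e2]; linear_combination ((cc * D - 1) / 3) * s1
    have e4 : sE S (Lf T) e = -(Al D) * (nE S (Lf T) / 3) := by linarith
    rw [e1, e3, e4]
    linarith
  -- large and small triangles
  set T1 : ℂ → ℂ → ℂ → Prop := fun c q r => T c q r ∧ 1 < RR c q r with hT1
  set T0 : ℂ → ℂ → ℂ → Prop := fun c q r => T c q r ∧ RR c q r ≤ 1 with hT0
  have F0 : Fam S T0 := by
    constructor
    · intro c q r h; exact hF.tr _ _ _ h.1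
    · intro c q r h; exact ⟨hF.cyc _ _ _ h.1, by rw [RR_cyc]; exact h.2⟩
  have sp := sE_split (P := S) (X := Lf T) (Y := Lf T1) g
  have sp1 : sE S (fun c q => Lf T c q ∧ Lf T1 c q) g = sE S (Lf T1) g := by
    apply sE_congr
    · intro c _ q _
      constructor
      · exact fun h => h.2
      · intro h
        obtain ⟨r, hr⟩ := h
        exact ⟨⟨r, hr.1⟩, r, hr⟩
    · intro c _ q _ _; rfl
  have sp0 : sE S (fun c q => Lf T c q ∧ ¬ Lf T1 c q) g = sE S (Lf T0) g := by
    apply sE_congr
    · intro c _ q _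
      constructor
      · rintro ⟨⟨r, hr⟩, h2⟩
        refine ⟨r, hr, ?_⟩
        by_contra hcon
        exact h2 ⟨r, hr, not_le.mp hcon⟩
      · rintro ⟨r, hr, h2⟩
        refine ⟨⟨r, hr⟩, ?_⟩
        rintro ⟨r', hr', h3⟩
        have := Tr_unique (hF.tr _ _ _ hr) (hF.tr _ _ _ hr')
        subst this
        linarith
    · intro c _ q _ _; rfl
  rw [sp, sp1, sp0]
  have D1 : 0 ≤ 1 - D := by linarith
  -- small triangles
  have k0 : 0 ≤ sE S (Lf T0) g := by
    have h1 := sT_avg (P := S) F0.cyc (fun c q _ => g c q)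
    rw [sT_edge F0] at h1
    have h2 : 0 ≤ sT S T0 (fun c q r => g c q + g q r + g r c) := by
      have h3 : sT S T0 (fun _ _ _ => (0 : ℝ)) = 0 := by
        unfold sT; simp
      rw [← h3]
      apply sT_mono
      intro c q r ht
      have hTr := hF.tr _ _ _ ht.1
      have hX := Tr_XX hTr
      have hX2 : 0 < XX q r c := by rw [XX_cyc]; exact hX
      have hX3 : 0 < XX r c q := by rw [XX_cyc]; exact hX2
      have hR := ht.2
      have hR2 : RR q r c ≤ 1 := by rw [RR_cyc]; exact hR
      have hR3 : RR r c q ≤ 1 := by rw [RR_cyc]; exact hR2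
      have b1 := small_Hh (D := D) hX hR
      have b2 := small_Hh (D := D) hX2 hR2
      have b3 := small_Hh (D := D) hX3 hR3
      have a1 := area_id hX
      have a2 := hC3 _ _ _ (al_sum hTr)
      have a3 := hAR c q r hX hR
      simp only [hg, he]
      rw [Tr_al hTr, Tr_al (Tr_cyc hTr), Tr_al (Tr_cyc (Tr_cyc hTr))] at a2 ⊢
      rw [b1, b2, b3]
      have a4 : (1 - D) * (XX c q r / 2) ≤ (1 - D) * (3 * √3 / 4) :=
        mul_le_mul_of_nonneg_left a3 D1
      nlinarith [sq_nonneg (1 - D)]
    linarith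
  -- large triangles
  have k1 : 0 ≤ sE S (Lf T1) g := by
    have hnn : ∀ c q r, T1 c q r → 0 ≤ al S c q → 0 ≤ g c q := by
      intro c q r ht h0
      have hTr := hF.tr _ _ _ ht.1
      have hX := Tr_XX hTr
      have hc := big_cos hX ht.2
      rw [← Tr_al hTr] at hc
      have h1 := hHA D (aa c q) (al S c q) hD0 hD1 (aa_pos hX) (aa_le _ _) h0
        (al_le_half S c q) hc
      have h2 := hC1 (al S c q) h0 (al_le_half S c q)
      have h3 := mul_le_mul_of_nonneg_left h2 D1
      simp only [hg, he]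
      linarith
    have hmix : ∀ c q r r', T1 c q r → T1 q c r' → al S c q < 0 → 0 ≤ g c q + g q c := by
      intro c q r r' ht ht' h0
      have hTr := hF.tr _ _ _ ht.1
      have hTr' := hF.tr _ _ _ ht'.1
      have hX := Tr_XX hTr
      have hE := Tr_Ed hTr
      unfold Ed at hE
      have hc := big_cos hX ht.2
      have hl := lt_att c q r
      rw [← Tr_al hTr] at hc hl
      have h1 := hHB D (aa c q) (-al S c q) (al S q c) hD0 hD1 (aa_pos hX) (aa_le _ _)
        (by linarith) (by linarith) (al_le_half S q c) (by linarith) (by rw [cos_neg]; exact hc)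
      have h2 := hC2 (-al S c q) (al S q c) (by linarith) (by linarith) (al_le_half S q c)
      rw [neg_neg] at h2
      have h3 := mul_le_mul_of_nonneg_left h2 D1
      have h4 : Hh D (aa c q) (-al S c q) = -Hh D (aa c q) (al S c q) := by
        unfold Hh; rw [Mi_neg, Mi_neg]; ring
      simp only [hg, he]
      rw [aa_symm c q]
      rw [h4] at h1
      nlinarith [sq_nonneg (1 - D)]
    apply sE_pair
    · rintro c _ q _ ⟨r, hr⟩ ⟨r', hr'⟩
      by_cases n1 : 0 ≤ al S c q
      · by_cases n2 : 0 ≤ al S q c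
        · exact add_nonneg (hnn _ _ _ hr n1) (hnn _ _ _ hr' n2)
        · have := hmix _ _ _ _ hr' hr (not_le.mp n2)
          linarith
      · exact hmix _ _ _ _ hr hr' (not_le.mp n1)
    · rintro c _ q _ ⟨r, hr⟩ hn
      apply hnn _ _ _ hr
      by_contra hneg
      apply hn
      have hneg' := not_le.mp hneg
      have hTr := hF.tr _ _ _ hr.1
      have hX := Tr_XX hTr
      have hal := Tr_al hTr
      have hbad : Bad c q r := by
        refine ⟨?_, hr.2⟩
        unfold an; linarith
      have hL : Lf T q c := by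
        by_contra h'
        exact hgood _ _ _ hr.1 h' hbad
      obtain ⟨r', hr'⟩ := hL
      refine ⟨r', hr', ?_⟩
      have hTr' := hF.tr _ _ _ hr'
      have hX' := Tr_XX hTr'
      have hal' := Tr_al hTr'
      have hE := Tr_Ed hTr
      unfold Ed at hE
      rw [hal, hal'] at hE
      have e1 := half_eq hX
      have e2 := half_eq hX'
      rw [norm_sub_rev c q, ← e1] at e2
      have c1 := cos_att_pos c q r
      have c2 := cos_att_pos q c r'
      have c3 : cos (att q c r') < cos (att c q r) := by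
        rw [← cos_neg (att c q r)]
        apply cos_lt_cos_of_nonneg_of_le_pi_div_two
        · linarith
        · exact (att_lt _ _ _).le
        · linarith
      have hR := hr.2
      by_contra hcon
      have hR' := not_lt.mp hcon
      nlinarith [RR_pos hX', RR_pos hX]
  linarith

end

end FT58.AS.H06
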